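import Pool.Agent.Helper53.BM.MH.Defs

set_option autoImplicit false

namespace Pool.Agent.Helper53.BM

universe u

variable {E : Type u} [NormedAddCommGroup E] [NormedSpace ℝ E]

/-- The skew operators. -/
noncomputable def skewOps (E : Type u) [NormedAddCommGroup E] [NormedSpace ℝ E] :
    Submodule ℝ (E →L[ℝ] E) where
  carrier := {D | ∀ y, J y (D y) = 0}
  add_mem' := by
    intro D D' h h' y
    rw [add_apply, map_add, h y, h' y, add_zero]
  zero_mem' := by
    intro y
    rw [zero_apply, map_zero]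
  smul_mem' := by
    intro c D h y
    rw [smul_apply, map_smul, h y, smul_zero]

lemma mem_skewOps {D : E →L[ℝ] E} : D ∈ skewOps E ↔ ∀ y, J y (D y) = 0 := Iff.rfl

lemma mem_closure_Ws {𝔤 : Submodule ℝ (E →L[ℝ] E)} {D : E →L[ℝ] E} (hD : D ∈ 𝔤) (z : E) :
    D z ∈ (Ws 𝔤 z).topologicalClosure :=
  Submodule.le_topologicalClosure _ (mem_Ws.mpr ⟨D, hD, rfl⟩)

end Pool.Agent.Helper53.BM
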