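import Pool.Agent.Helper53.BM.Micro.Power

set_option autoImplicit false

open Filter Topology

namespace Pool.Agent.Helper53.BM

/-- The isometry group acts transitively and (uniformly) micro-transitively on the unit sphere. -/
structure MicroSp (E : Type*) [NormedAddCommGroup E] [NormedSpace ℝ E] : Prop where
  hmt : ∀ ε : ℝ, 0 < ε → ∃ t : ℝ, 0 < t ∧ Mod E t ε
  htr : ∀ x y : E, ‖x‖ = 1 → ‖y‖ = 1 → ∃ T : E ≃ₗᵢ[ℝ] E, T x = y
  hnt : ∃ v : E, ‖v‖ = 1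

variable {E : Type*} [NormedAddCommGroup E] [NormedSpace ℝ E]

/-- The Hessian of half the squared norm. -/
noncomputable def hess (x : E) : E →L[ℝ] StrongDual ℝ E := fderiv ℝ J x

/-- Conjugation of an operator by an isometry. -/
noncomputable def cj (T : E ≃ₗᵢ[ℝ] E) (D : E →L[ℝ] E) : E →L[ℝ] E :=
  ((T.toContinuousLinearEquiv : E →L[ℝ] E).comp D).comp
    (T.symm.toContinuousLinearEquiv : E →L[ℝ] E)

@[simp] lemma cj_apply (T : E ≃ₗᵢ[ℝ] E) (D : E →L[ℝ] E) (z : E) :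
    cj T D z = T (D (T.symm z)) := rfl

/-- A linear space of skew operators which is normalised by its exponentials and by a
micro-transitive set of isometries. -/
structure IsStr (𝔤 : Submodule ℝ (E →L[ℝ] E)) : Prop where
  skew : ∀ D ∈ 𝔤, ∀ y : E, J y (D y) = 0
  conj : ∀ D ∈ 𝔤, ∀ D' ∈ 𝔤, ∀ t : ℝ,
    NormedSpace.exp (t • D) * D' * NormedSpace.exp (-(t • D)) ∈ 𝔤
  move : ∀ ε : ℝ, 0 < ε → ∃ t : ℝ, 0 < t ∧ ∀ x y : E, ‖x‖ = 1 → ‖y‖ = 1 → ‖x - y‖ ≤ t →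
    ∃ T : E ≃ₗᵢ[ℝ] E, T x = y ∧ CloseToId T ε ∧ ∀ D ∈ 𝔤, cj T D ∈ 𝔤 ∧ cj T.symm D ∈ 𝔤

/-- The annihilator of `𝔤` at `z`. -/
def Zs (𝔤 : Submodule ℝ (E →L[ℝ] E)) (z : E) : Submodule ℝ E where
  carrier := {v | ∀ D ∈ 𝔤, J z (D v) = 0}
  add_mem' := by
    intro v w hv hw D hD
    rw [map_add, map_add, hv D hD, hw D hD, add_zero]
  zero_mem' := by
    intro D _
    rw [map_zero, map_zero]
  smul_mem' := by
    intro c v hv D hD
    rw [map_smul, map_smul, hv D hD, smul_zero]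

/-- The orbit directions `{D z : D ∈ 𝔤}`. -/
noncomputable def Ws (𝔤 : Submodule ℝ (E →L[ℝ] E)) (z : E) : Submodule ℝ E :=
  𝔤.map ((ContinuousLinearMap.apply ℝ E z : (E →L[ℝ] E) →L[ℝ] E) : (E →L[ℝ] E) →ₗ[ℝ] E)

lemma mem_Ws {𝔤 : Submodule ℝ (E →L[ℝ] E)} {z w : E} : w ∈ Ws 𝔤 z ↔ ∃ D ∈ 𝔤, D z = w := by
  simp [Ws]

end Pool.Agent.Helper53.BM
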