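import Pool.Agent.Helper53.BM.MH.Key
import Pool.Agent.Helper53.BM.Lip.Final

set_option autoImplicit false

open Filter Topology BoundedContinuousFunction

namespace Pool.Agent.Helper53.BM

universe u

variable {E : Type u} [NormedAddCommGroup E] [NormedSpace ℝ E]

/-- If the orbit directions at `z` are not dense in `ker J z`, then there is a nonzero vector in
`Zs 𝔤 z ∩ ker J z`. -/
lemma exists_u [CompleteSpace E] (h : MicroSp E) {𝔤 : Submodule ℝ (E →L[ℝ] E)}
    (hg : IsStr 𝔤) {z v : E} (hz : ‖z‖ = 1) (hv : J z v = 0)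
    (hv' : v ∉ (Ws 𝔤 z).topologicalClosure) : ∃ u ∈ Zs 𝔤 z, u ≠ 0 ∧ J z u = 0 := by
  have hz0 : z ≠ 0 := by
    intro h1
    rw [h1, norm_zero] at hz
    exact zero_ne_one hz
  obtain ⟨L, c, hL, hc, hb⟩ := hess_bounds h
  obtain ⟨P, hP1, hP2⟩ := exists_proj (hess z) (fun v w => hess_symm h hz0 v w) hc
    (fun v => (hb z hz0).2 v) (Ws 𝔤 z)
  refine ⟨v - P v, ?_, ?_, ?_⟩
  · intro D hD
    have h1 := hP2 v (D z) (mem_closure_Ws hD z)
    rw [hess_skew h (hg.skew D hD) hz0, neg_eq_zero] at h1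
    exact h1
  · intro h1
    exact hv' (by rw [sub_eq_zero.mp h1]; exact hP1 v)
  · have h2 : (Ws 𝔤 z).topologicalClosure ≤ LinearMap.ker ((J z : StrongDual ℝ E) : E →ₗ[ℝ] ℝ) := by
      refine Submodule.topologicalClosure_minimal _ ?_ ?_
      · intro w hw'
        obtain ⟨D, hD, rfl⟩ := mem_Ws.mp hw'
        exact hg.skew D hD z
      · exact ContinuousLinearMap.isClosed_ker _
    have h3 : J z (P v) = 0 := h2 (hP1 v)
    rw [map_sub, hv, h3, sub_zero]

lemma ne_smul_of_ker {z u : E} (hz : ‖z‖ = 1) (hu : u ≠ 0) (hJ : J z u = 0) (c : ℝ) :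
    u ≠ c • z := by
  intro h1
  rw [h1, map_smul, J_apply_self, hz, one_pow, smul_eq_mul, mul_one] at hJ
  rw [hJ, zero_smul] at h1
  exact hu h1

/-- Either the orbits are open or we get a contradiction with the Key Proposition. -/
theorem open_orbits [CompleteSpace E] (h : MicroSp E) {z : E} (hz : ‖z‖ = 1) :
    ∃ M : ℝ, ∀ v : E, ‖v‖ = 1 → J z v = 0 → ∃ D ∈ skewOps E, ‖D‖ ≤ M ∧ ‖D z - v‖ ≤ 1 / 2 := by
  by_contra hopen
  push Not at hopen
  have hg := isStr_skewOps h
  have h' := microSp_UP h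
  have hz1 : ‖udiag z‖ = 1 := by rw [udiag.norm_map, hz]
  by_cases hbb : ∃ β : ℝ, 0 < β ∧ ∀ D ∈ skewOps E, β * ‖D‖ ≤ ‖D z‖
  · -- case (B)
    obtain ⟨β, hβ, hbb⟩ := hbb
    obtain ⟨v, hv1, hv2, hv3⟩ := hopen (3 / 2 / β)
    have hv' : v ∉ (Ws (skewOps E) z).topologicalClosure := by
      intro hcl
      obtain ⟨w, hw, hdist⟩ := Metric.mem_closure_iff.mp hcl (1 / 2) (by norm_num)
      obtain ⟨D, hD, rfl⟩ := mem_Ws.mp hw
      rw [dist_eq_norm, norm_sub_rev] at hdist
      have h1 : ‖D z‖ ≤ 3 / 2 := by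
        calc ‖D z‖ = ‖(D z - v) + v‖ := by rw [sub_add_cancel]
          _ ≤ ‖D z - v‖ + ‖v‖ := norm_add_le _ _
          _ ≤ 3 / 2 := by linarith
      have h2 : ‖D‖ ≤ 3 / 2 / β := by
        rw [le_div_iff₀ hβ, mul_comm]
        exact (hbb D hD).trans h1
      have h3 := hv3 D hD h2
      linarith
    obtain ⟨u₀, hu₀, hu₀0, hu₀J⟩ := exists_u h hg hz hv2 hv'
    have hn : 0 < ‖u₀‖ := norm_pos_iff.mpr hu₀0
    set u : E := ‖u₀‖⁻¹ • u₀ with hu
    have hu1 : ‖u‖ = 1 := by rw [hu, norm_smul, norm_inv, norm_norm, inv_mul_cancel₀ hn.ne']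
    have huZ : u ∈ Zs (skewOps E) z := (Zs (skewOps E) z).smul_mem _ hu₀
    have huJ : J z u = 0 := by rw [hu, map_smul, hu₀J, smul_zero]
    obtain ⟨D, hD, hD0, c, hDc⟩ := exists_skew_UP h hz hu1 huJ
    have huZ' : udiag u ∈ Zs (skewOps (UP E)) (udiag z) := by
      intro D' hD'
      obtain ⟨D'', hD'', hcomp⟩ := compress h hD'
      rw [hcomp z u]
      exact huZ D'' hD''
    have hz' : udiag z ≠ (0 : UP E) := by
      intro h1
      rw [h1, norm_zero] at hz1
      exact zero_ne_one hz1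
    have hu' : udiag u ≠ (0 : UP E) := by
      intro h1
      have h2 : ‖udiag u‖ = 1 := by rw [udiag.norm_map, hu1]
      rw [h1, norm_zero] at h2
      exact zero_ne_one h2
    have huJ' : J (udiag z) (udiag u) = 0 := by
      refine tendsto_nhds_unique (tendsto_J h (ucst z) (ucst u)) ?_
      exact tendsto_const_nhds.congr fun n => huJ.symm
    have hc0 : c = 0 := by
      have h1 := hess_skew h' hD hz' (udiag u)
      rw [hDc, huZ' D hD, neg_zero, map_smul, smul_eq_mul] at h1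
      obtain ⟨L, c', hL, hc', hb⟩ := hess_bounds h'
      have h2 := (hb _ hz').2 (udiag u)
      have h3 : 0 < c' * ‖udiag u‖ ^ 2 := by
        have := norm_pos_iff.mpr hu'
        positivity
      rcases mul_eq_zero.mp h1 with h4 | h4
      · exact h4
      · linarith
    rw [hc0, zero_smul] at hDc
    exact hD0 (key_prop h' (isStr_skewOps h') hz1 huZ' (ne_smul_of_ker hz1 hu' huJ') hD hDc)
  · -- case (A)
    push Not at hbb
    choose D hD hDz using fun n : ℕ => hbb (1 / ((n : ℝ) + 1)) (by positivity)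
    have hDn : ∀ n, 0 < ‖D n‖ := by
      intro n
      by_contra hcon
      have h1 : ‖D n‖ = 0 := le_antisymm (not_lt.mp hcon) (norm_nonneg _)
      have h2 := hDz n
      rw [h1, mul_zero] at h2
      exact absurd h2 (not_lt.mpr (norm_nonneg _))
    set D' : ℕ →ᵇ (E →L[ℝ] E) := bseq (fun n => ‖D n‖⁻¹ • D n) 1 (fun n => by
      rw [norm_smul, norm_inv, norm_norm, inv_mul_cancel₀ (hDn n).ne']) with hD'
    have hD'n : ∀ n, ‖D' n‖ = 1 := by
      intro n
      rw [hD', bseq_apply, norm_smul, norm_inv, norm_norm, inv_mul_cancel₀ (hDn n).ne']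
    have hD'g : umap D' ∈ ustr (skewOps E) :=
      ⟨D', fun n => (skewOps E).smul_mem _ (hD n), rfl⟩
    have hD'z : umap D' (udiag z) = 0 := by
      have h1 : umap D' (udiag z) = umk (app D' (ucst z)) := rfl
      rw [h1, ← map_zero (umk (E := E)), umk_eq_iff]
      have h2 : Tendsto (fun n : ℕ => (1 / ((n : ℝ) + 1))) (hyperfilter ℕ : Filter ℕ) (𝓝 0) :=
        (tendsto_one_div_add_atTop_nhds_zero_nat (𝕜 := ℝ)).mono_left Nat.hyperfilter_le_atTop
      refine squeeze_zero (fun n => norm_nonneg _) (fun n => ?_) h2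
      have h3 : (app D' (ucst z)) n - (0 : ℕ →ᵇ E) n = ‖D n‖⁻¹ • D n z := by
        have h4 : (app D' (ucst z)) n - (0 : ℕ →ᵇ E) n = ‖D n‖⁻¹ • D n z - 0 := rfl
        rw [h4, sub_zero]
      rw [h3, norm_smul, norm_inv, norm_norm, inv_mul_le_iff₀ (hDn n), mul_comm]
      exact (hDz n).le
    have hD'0 : umap D' ≠ 0 := by
      intro h0
      have h1 : ∀ n, ∃ x : E, ‖x‖ ≤ 1 ∧ 1 / 2 ≤ ‖D' n x‖ := by
        intro n
        by_contra hcon
        push Not at hcon
        have h2 : ‖D' n‖ ≤ 1 / 2 := by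
          refine ContinuousLinearMap.opNorm_le_of_unit_norm (by norm_num) fun x hx => ?_
          exact (hcon x hx.le).le
        rw [hD'n n] at h2
        norm_num at h2
      choose x hx1 hx2 using h1
      have h2 : umap D' (umk (bseq x 1 hx1)) = 0 := by rw [h0]; rfl
      rw [umap_mk] at h2
      have h3 := tendsto_norm (app D' (bseq x 1 hx1))
      rw [h2, norm_zero] at h3
      have h4 : (1 / 2 : ℝ) ≤ 0 := ge_of_tendsto' h3 fun n => hx2 n
      norm_num at h4
    choose v hv1 hv2 hv3 using fun n : ℕ => hopen (n : ℝ)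
    set V : ℕ →ᵇ E := bseq v 1 (fun n => (hv1 n).le) with hV
    have hVJ : J (udiag z) (umk V) = 0 := by
      refine tendsto_nhds_unique (tendsto_J h (ucst z) V) ?_
      exact tendsto_const_nhds.congr fun n => (hv2 n).symm
    have hVcl : umk V ∉ (Ws (ustr (skewOps E)) (udiag z)).topologicalClosure := by
      intro hcl
      obtain ⟨w, hw, hdist⟩ := Metric.mem_closure_iff.mp hcl (1 / 2) (by norm_num)
      obtain ⟨_, ⟨A, hA, rfl⟩, rfl⟩ := mem_Ws.mp hw
      rw [dist_eq_norm, norm_sub_rev] at hdist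
      have h1 : umap A (udiag z) = umk (app A (ucst z)) := rfl
      rw [h1, ← map_sub] at hdist
      have h2 := (tendsto_order.mp (tendsto_norm (app A (ucst z) - V))).2 _ hdist
      have h3 : ∀ᶠ n : ℕ in (hyperfilter ℕ : Filter ℕ), ‖A‖ ≤ (n : ℝ) :=
        ((tendsto_natCast_atTop_atTop (R := ℝ)).eventually_ge_atTop ‖A‖).filter_mono
          Nat.hyperfilter_le_atTop
      obtain ⟨n, hn1, hn2⟩ := (h2.and h3).exists
      have h4 := hv3 n (A n) (hA n) ((A.norm_coe_le_norm n).trans hn2)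
      have h5 : ‖A n z - v n‖ < 1 / 2 := hn1
      linarith
    obtain ⟨u, hu, hu0, huJ⟩ := exists_u h' (isStr_ustr h hg) hz1 hVJ hVcl
    exact hD'0 (key_prop h' (isStr_ustr h hg) hz1 hu (ne_smul_of_ker hz1 hu0 huJ) hD'g hD'z)

/-- Micro-transitive spaces satisfy the parallelogram law. -/
theorem parallelogram_of_microSp [CompleteSpace E] (h : MicroSp E) (x y : E) :
    ‖x + y‖ ^ 2 + ‖x - y‖ ^ 2 = 2 * (‖x‖ ^ 2 + ‖y‖ ^ 2) := by
  obtain ⟨z, hz⟩ := h.hnt
  obtain ⟨M, hM⟩ := open_orbits h hz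
  obtain ⟨C, hC⟩ := newton h hz hM
  exact Lip.parallelogram_of_bend hC x y

end Pool.Agent.Helper53.BM
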