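import Pool.Agent.Helper53.BM.MH.Ultra2
import Pool.Agent.Helper53.BM.MH.Defs2
import Pool.Agent.Helper12.MH.Lip
import Pool.Agent.Helper12.MH.Compress
import Pool.Agent.Helper4.MH.Proj
import Pool.Agent.Helper4.MH.Eigen
import Pool.Agent.Helper79.MH.Hess
import Pool.Agent.Helper30.MH.Skew
import Pool.Agent.Helper31.MH.Newton
import Pool.Agent.Helper61.MH.Range
import Pool.Agent.Helper84.MH.ExistsCCore

set_option autoImplicit false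

open Filter Topology

namespace Pool.Agent.Helper53.BM

universe u

variable {E : Type u} [NormedAddCommGroup E] [NormedSpace ℝ E]

theorem exists_C [CompleteSpace E] (h : MicroSp E) {𝔤 : Submodule ℝ (E →L[ℝ] E)}
    (hg : IsStr 𝔤) {z u : E} (hz : ‖z‖ = 1) (hu : u ∈ Zs 𝔤 z) :
    ∃ C : (Ws 𝔤 z).topologicalClosure →L[ℝ] E,
      (∀ (D : E →L[ℝ] E) (hD : D ∈ 𝔤), C ⟨D z, mem_closure_Ws hD z⟩ = D u) ∧
      (∀ w w' : (Ws 𝔤 z).topologicalClosure, hess z (C w) w' = hess z w (C w')) ∧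
      ∀ D₀ ∈ 𝔤, D₀ z = 0 → ∀ w w' : (Ws 𝔤 z).topologicalClosure, (w' : E) = D₀ w →
        C w' = D₀ (C w) := by
  have hz0 : z ≠ 0 := by
    intro h1
    rw [h1, norm_zero] at hz
    exact zero_ne_one hz
  obtain ⟨K, hK, h7⟩ := seven_b h hg
  exact exists_C_core hg hu (fun v w => hess_symm h hz0 v w)
    (fun D hD v => hess_skew h hD hz0 v) (fun D hD => h7 z hz D hD u hu)

theorem newton [CompleteSpace E] (h : MicroSp E) {z : E} (hz : ‖z‖ = 1) {M : ℝ}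
    (hM : ∀ v : E, ‖v‖ = 1 → J z v = 0 → ∃ D ∈ skewOps E, ‖D‖ ≤ M ∧ ‖D z - v‖ ≤ 1 / 2) :
    ∃ C : ℝ, ∀ x y : E, ‖x‖ = 1 → ‖y‖ = 1 → ∀ ε : ℝ, 0 < ε → ∃ T : E ≃ₗᵢ[ℝ] E,
      ‖T x - y‖ ≤ ε ∧ ‖T (T x) - (2 : ℝ) • T x + x‖ ≤ C * ‖x - y‖ ^ 2 + ε :=
  newton_of_exp h (fun D hD => let ⟨T, hT, _⟩ := exists_iso_exp h hD; ⟨T, hT⟩) hz hM

end Pool.Agent.Helper53.BM
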