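import Pool.Agent.Helper53.BM.MH.Glue

set_option autoImplicit false

open Filter Topology BoundedContinuousFunction

namespace Pool.Agent.Helper53.BM

universe u

variable {E : Type u} [NormedAddCommGroup E] [NormedSpace ℝ E]

/-- (I): the crucial observation. -/
lemma no_eigen [CompleteSpace E] (h : MicroSp E) {𝔤 : Submodule ℝ (E →L[ℝ] E)}
    (hg : IsStr 𝔤) {z u e : E} (hz : z ≠ 0) {D₀ : E →L[ℝ] E} (hD₀ : D₀ ∈ 𝔤) (h0 : D₀ z = 0)
    (hu0 : D₀ u = 0) (l : ℝ) (hne : l • z - u ≠ 0)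
    (hw : ∀ D ∈ 𝔤, hess z (D (l • z - u)) (D₀ e) = 0) : D₀ e = 0 := by
  have hy : D₀ (l • z - u) = 0 := by rw [map_sub, map_smul, h0, hu0, smul_zero, sub_zero]
  have h1 := range_closure h hg hne hD₀ hy e
  have h2 : (Ws 𝔤 (l • z - u)).topologicalClosure ≤
      LinearMap.ker (((hess z).flip (D₀ e) : StrongDual ℝ E) : E →ₗ[ℝ] ℝ) := by
    refine Submodule.topologicalClosure_minimal _ ?_ ?_
    · intro w hw'
      obtain ⟨D, hD, rfl⟩ := mem_Ws.mp hw'
      exact hw D hD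
    · exact ContinuousLinearMap.isClosed_ker _
  have h3 : hess z (D₀ e) (D₀ e) = 0 := h2 h1
  obtain ⟨L, c, hL, hc, hb⟩ := hess_bounds h
  have h4 := (hb z hz).2 (D₀ e)
  rw [h3] at h4
  have h5 : ‖D₀ e‖ ^ 2 = 0 := by nlinarith [sq_nonneg ‖D₀ e‖]
  exact norm_eq_zero.mp (pow_eq_zero_iff two_ne_zero |>.mp h5)

/-- A skew operator which kills `z` is skew for the Hessian at `z`. -/
lemma hess_skew_of_fix [CompleteSpace E] (h : MicroSp E) {D : E →L[ℝ] E} (hD : D ∈ skewOps E)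
    {z : E} (hz : z ≠ 0) (h0 : D z = 0) (v w : E) : hess z (D v) w = - hess z v (D w) := by
  have hexp : ∀ t : ℝ, NormedSpace.exp (t • D) z = z := by
    intro t
    have h1 : ∀ s : ℝ, HasDerivAt (fun s : ℝ => NormedSpace.exp (s • D) z) 0 s := by
      intro s
      have h2 := (hasDerivAt_exp_smul_const D s).clm_apply (hasDerivAt_const s z)
      have h3 : (NormedSpace.exp (s • D) * D) z + NormedSpace.exp (s • D) 0 = 0 := by
        rw [map_zero, add_zero, mul_apply_eq_comp, h0, map_zero]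
      rwa [h3] at h2
    have h4 := is_const_of_deriv_eq_zero (fun s => (h1 s).differentiableAt)
      (fun s => (h1 s).deriv) t 0
    rw [h4, zero_smul, NormedSpace.exp_zero, one_apply_eq_self]
  have hconst : ∀ t : ℝ, hess z (NormedSpace.exp (t • D) v) (NormedSpace.exp (t • D) w) =
      hess z v w := by
    intro t
    obtain ⟨T, hT, -⟩ := exists_iso_exp h ((skewOps E).smul_mem t hD)
    rw [← hT, ← hT]
    have h1 := hess_map h hz T v w
    rwa [hT z, hexp t] at h1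
  have h1 : ∀ v : E, HasDerivAt (fun s : ℝ => NormedSpace.exp (s • D) v) (D v) 0 := by
    intro v
    have h2 := (hasDerivAt_exp_smul_const D (0 : ℝ)).clm_apply (hasDerivAt_const (0 : ℝ) v)
    have h3 : (NormedSpace.exp ((0 : ℝ) • D) * D) v + NormedSpace.exp ((0 : ℝ) • D) 0 = D v := by
      rw [map_zero, add_zero, mul_apply_eq_comp, zero_smul, NormedSpace.exp_zero,
        one_apply_eq_self]
    rwa [h3] at h2
  have h2 : HasDerivAt (fun s : ℝ => hess z (NormedSpace.exp (s • D) v)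
      (NormedSpace.exp (s • D) w)) (hess z (D v) w + hess z v (D w)) 0 := by
    have h3 : HasDerivAt (fun s : ℝ => hess z (NormedSpace.exp (s • D) v)) (hess z (D v)) 0 :=
      (hess z).hasFDerivAt.comp_hasDerivAt 0 (h1 v)
    have h4 := h3.clm_apply (h1 w)
    simpa using h4
  have h3 : HasDerivAt (fun s : ℝ => hess z (NormedSpace.exp (s • D) v)
      (NormedSpace.exp (s • D) w)) 0 0 := by
    have h4 : (fun s : ℝ => hess z (NormedSpace.exp (s • D) v) (NormedSpace.exp (s • D) w)) =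
        fun _ => hess z v w := by
      funext s
      exact hconst s
    rw [h4]
    exact hasDerivAt_const _ _
  have h4 := h2.unique h3
  linarith

/-- The Hessian of the ultrapower in orbit directions. -/
lemma tendsto_hess_UP [CompleteSpace E] (h : MicroSp E) {𝔤 : Submodule ℝ (E →L[ℝ] E)}
    (hg : IsStr 𝔤) {z : E} (hz : z ≠ 0) (v w : ℕ →ᵇ E)
    (hw : umk w ∈ (Ws (ustr 𝔤) (udiag z)).topologicalClosure) :
    Tendsto (fun n => hess z (v n) (w n)) (hyperfilter ℕ : Filter ℕ)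
      (𝓝 (hess (udiag z) (umk v) (umk w))) := by
  have hz' : udiag z ≠ (0 : UP E) := by
    intro h1
    exact hz (udiag.injective (by rw [h1, map_zero]))
  obtain ⟨L, c, hL, hc, hb⟩ := hess_bounds h
  obtain ⟨L', c', hL', hc', hb'⟩ := hess_bounds (microSp_UP h)
  rw [Metric.tendsto_nhds]
  intro ε hε
  set η : ℝ := ε / (4 * (L + L') * (‖v‖ + 1)) with hη
  have hη0 : 0 < η := by positivity
  obtain ⟨W', hW', hdist⟩ := Metric.mem_closure_iff.mp hw η hη0
  obtain ⟨A, ⟨D, hD, rfl⟩, hA⟩ := mem_Ws.mp hW'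
  rw [← hA] at hdist
  have h1 : Tendsto (fun n => hess z (v n) (D n z)) (hyperfilter ℕ : Filter ℕ)
      (𝓝 (hess (udiag z) (umk v) (umap D (udiag z)))) := by
    rw [hess_skew (microSp_UP h) (isStr_ustr h hg |>.skew _ ⟨D, hD, rfl⟩) hz']
    have h2 := (tendsto_J h (ucst z) (app D v)).neg
    refine h2.congr fun n => ?_
    rw [hess_skew h (hg.skew _ (hD n)) hz]
    rfl
  have h2 : Tendsto (fun n => ‖w n - D n z‖) (hyperfilter ℕ : Filter ℕ)
      (𝓝 ‖umk w - umap D (udiag z)‖) := by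
    rw [udiag_apply, umap_mk, ← map_sub]
    exact tendsto_norm _
  rw [dist_eq_norm] at hdist
  have h3 := (tendsto_order.mp h2).2 η hdist
  have h4 := (Metric.tendsto_nhds.mp h1) (ε / 4) (by positivity)
  filter_upwards [h3, h4] with n hn1 hn2
  rw [Real.dist_eq] at hn2 ⊢
  have h5 : |hess z (v n) (w n) - hess z (v n) (D n z)| ≤ L * ‖v‖ * η := by
    rw [← map_sub, ← Real.norm_eq_abs]
    calc ‖hess z (v n) (w n - D n z)‖ ≤ ‖hess z (v n)‖ * ‖w n - D n z‖ :=
          (hess z (v n)).le_opNorm _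
      _ ≤ (L * ‖v‖) * η := by
          gcongr
          refine ((hess z).le_opNorm _).trans ?_
          gcongr
          · exact (hb z hz).1
          · exact v.norm_coe_le_norm n
  have h6 : |hess (udiag z) (umk v) (umap D (udiag z)) - hess (udiag z) (umk v) (umk w)| ≤
      L' * ‖v‖ * η := by
    rw [← map_sub, ← Real.norm_eq_abs]
    calc ‖hess (udiag z) (umk v) (umap D (udiag z) - umk w)‖
        ≤ ‖hess (udiag z) (umk v)‖ * ‖umap D (udiag z) - umk w‖ :=
          (hess (udiag z) (umk v)).le_opNorm _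
      _ ≤ (L' * ‖v‖) * η := by
          rw [norm_sub_rev]
          gcongr
          refine ((hess (udiag z)).le_opNorm _).trans ?_
          gcongr
          · exact (hb' _ hz').1
          · exact norm_umk_le v
  have h7 : L * ‖v‖ * η + L' * ‖v‖ * η ≤ ε / 4 := by
    have h8 : L * ‖v‖ * η + L' * ‖v‖ * η = (L + L') * ‖v‖ * η := by ring
    rw [h8, hη, mul_div_assoc', div_le_iff₀ (by positivity)]
    have h9 : 0 < L + L' := by positivity
    nlinarith [norm_nonneg v, mul_pos h9 hε]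
  have h8 : hess z (v n) (w n) - hess (udiag z) (umk v) (umk w) =
      (hess z (v n) (w n) - hess z (v n) (D n z)) +
      (hess z (v n) (D n z) - hess (udiag z) (umk v) (umap D (udiag z))) +
      (hess (udiag z) (umk v) (umap D (udiag z)) - hess (udiag z) (umk v) (umk w)) := by ring
  rw [h8]
  calc |_ + _ + _| ≤ |hess z (v n) (w n) - hess z (v n) (D n z)| +
      |hess z (v n) (D n z) - hess (udiag z) (umk v) (umap D (udiag z))| +
      |hess (udiag z) (umk v) (umap D (udiag z)) - hess (udiag z) (umk v) (umk w)| :=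
        abs_add_three _ _ _
    _ < ε := by linarith

/-- Constant sequences of operators. -/
noncomputable def ucop (D : E →L[ℝ] E) : ℕ →ᵇ (E →L[ℝ] E) := bseq (fun _ => D) ‖D‖ (fun _ => le_rfl)

@[simp] lemma ucop_apply (D : E →L[ℝ] E) (n : ℕ) : ucop D n = D := rfl

lemma umap_ucop_udiag (D : E →L[ℝ] E) (x : E) : umap (ucop D) (udiag x) = udiag (D x) := rfl

lemma ucop_mem {𝔤 : Submodule ℝ (E →L[ℝ] E)} {D : E →L[ℝ] E} (hD : D ∈ 𝔤) :
    umap (ucop D) ∈ ustr 𝔤 := ⟨ucop D, fun _ => hD, rfl⟩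

lemma udiag_mem_Zs (h : MicroSp E) {𝔤 : Submodule ℝ (E →L[ℝ] E)} {z u : E} (hu : u ∈ Zs 𝔤 z) :
    udiag u ∈ Zs (ustr 𝔤) (udiag z) := by
  rintro _ ⟨D, hD, rfl⟩
  refine tendsto_nhds_unique (tendsto_J h (ucst z) (app D (ucst u))) ?_
  refine tendsto_const_nhds.congr fun n => ?_
  exact (hu (D n) (hD n)).symm

/-- The Key Proposition, when `D₀ ^ 2` has an eigenvector. -/
theorem key_prop_aux [CompleteSpace E] (h : MicroSp E) {𝔤 : Submodule ℝ (E →L[ℝ] E)}
    (hg : IsStr 𝔤) {z u : E} (hz : ‖z‖ = 1) (hu : u ∈ Zs 𝔤 z) (hne : ∀ c : ℝ, u ≠ c • z)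
    {D₀ : E →L[ℝ] E} (hD₀ : D₀ ∈ 𝔤) (h0 : D₀ z = 0) {a : ℝ} (ha : a ≠ 0) {w : E} (hw : w ≠ 0)
    (hDw : -(D₀ (D₀ w)) = a • w) : False := by
  have hz0 : z ≠ 0 := by
    intro h1
    rw [h1, norm_zero] at hz
    exact zero_ne_one hz
  obtain ⟨C₁, hC₁, h7b⟩ := seven_b h hg
  have hu0 : D₀ u = 0 := by
    have h1 := h7b z hz D₀ hD₀ u hu
    rw [h0, norm_zero, mul_zero, zero_mul] at h1
    exact norm_le_zero_iff.mp h1
  obtain ⟨C, hCD, hCs, hCc⟩ := exists_C h hg hz hu
  obtain ⟨L, c, hL, hc, hb⟩ := hess_bounds h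
  -- the eigenspace
  set 𝒱 : Submodule ℝ E := LinearMap.ker ((D₀ * D₀ + a • (1 : E →L[ℝ] E) : E →L[ℝ] E) :
    E →ₗ[ℝ] E) with h𝒱
  have hmem : ∀ v : E, v ∈ 𝒱 ↔ D₀ (D₀ v) + a • v = 0 := fun v => Iff.rfl
  have hrange : ∀ v ∈ 𝒱, v = D₀ (-(a⁻¹) • D₀ v) := by
    intro v hv
    rw [hmem] at hv
    rw [map_smul, neg_smul, eq_neg_of_add_eq_zero_left hv, smul_neg, neg_neg, smul_smul,
      inv_mul_cancel₀ ha, one_smul]
  have hcl : ∀ v ∈ 𝒱, v ∈ (Ws 𝔤 z).topologicalClosure := by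
    intro v hv
    rw [hrange v hv]
    exact range_closure h hg hz0 hD₀ h0 _
  -- the operator `A`
  set ι : 𝒱 →L[ℝ] (Ws 𝔤 z).topologicalClosure :=
    𝒱.subtypeL.codRestrict (Ws 𝔤 z).topologicalClosure (fun v => hcl v v.2) with hι
  have hA0 : ∀ v : 𝒱, C (ι v) ∈ 𝒱 := by
    intro v
    rw [hmem]
    have h1 : D₀ (v : E) ∈ (Ws 𝔤 z).topologicalClosure := range_closure h hg hz0 hD₀ h0 _
    have h2 : D₀ (D₀ (v : E)) ∈ (Ws 𝔤 z).topologicalClosure := range_closure h hg hz0 hD₀ h0 _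
    have h3 := hCc D₀ hD₀ h0 (ι v) ⟨D₀ v, h1⟩ rfl
    have h4 := hCc D₀ hD₀ h0 ⟨D₀ v, h1⟩ ⟨D₀ (D₀ v), h2⟩ rfl
    rw [← h3, ← h4, ← map_smul, ← map_add]
    have h5 : (⟨D₀ (D₀ v), h2⟩ + a • ι v : (Ws 𝔤 z).topologicalClosure) = 0 := by
      ext
      exact (hmem v).mp v.2
    rw [h5, map_zero]
  set A : 𝒱 →L[ℝ] 𝒱 := (C.comp ι).codRestrict 𝒱 hA0 with hA
  have hAv : ∀ v : 𝒱, ((A v : 𝒱) : E) = C (ι v) := fun v => rfl
  -- the form
  set g : 𝒱 →L[ℝ] StrongDual ℝ 𝒱 := (hess z).bilinearComp 𝒱.subtypeL 𝒱.subtypeL with hgdef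
  have hgv : ∀ v v' : 𝒱, g v v' = hess z v v' := fun v v' => rfl
  have hnt : Nontrivial 𝒱 := by
    refine ⟨⟨⟨w, ?_⟩, 0, ?_⟩⟩
    · rw [hmem, ← hDw, add_neg_cancel]
    · intro h1
      exact hw (congrArg Subtype.val h1)
  obtain ⟨l, -, hl⟩ := approx_eigen g (fun v w => hess_symm h hz0 _ _) hc
    (fun v => (hb z hz0).2 v) A (fun v w => by
      rw [hgv, hgv, hAv, hAv]
      exact hCs (ι v) (ι w))
  choose v hv1 hv2 using fun n : ℕ => hl (1 / ((n : ℝ) + 1)) (by positivity)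
  -- the second ultrapower
  set W : ℕ →ᵇ E := bseq (fun n => (v n : E)) 1 (fun n => (hv1 n).le) with hW
  set e : ℕ →ᵇ E := bseq (fun n => -(a⁻¹) • D₀ (v n)) (|a⁻¹| * ‖D₀‖) (fun n => by
    rw [norm_smul, norm_neg, Real.norm_eq_abs]
    gcongr
    refine (D₀.le_opNorm _).trans ?_
    have : ‖(v n : E)‖ = 1 := hv1 n
    rw [this, mul_one]) with he
  have hWe : umk W = umap (ucop D₀) (umk e) := by
    rw [umap_mk]
    refine umk_congr (Eventually.of_forall fun n => ?_)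
    exact hrange _ (v n).2
  have h' := microSp_UP h
  have hg' := isStr_ustr h hg
  have hz' : udiag z ≠ (0 : UP E) := by
    intro h1
    exact hz0 (udiag.injective (by rw [h1, map_zero]))
  have hcl' : umk W ∈ (Ws (ustr 𝔤) (udiag z)).topologicalClosure := by
    rw [hWe]
    refine range_closure h' hg' hz' (ucop_mem hD₀) ?_ _
    rw [umap_ucop_udiag, h0, map_zero]
  have hfin : umap (ucop D₀) (umk e) = 0 := by
    refine no_eigen h' hg' hz' (ucop_mem hD₀) (by rw [umap_ucop_udiag, h0, map_zero])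
      (u := udiag u) (by rw [umap_ucop_udiag, hu0, map_zero]) l ?_ ?_
    · intro h1
      refine hne l (udiag.injective ?_)
      rw [map_smul]
      exact (sub_eq_zero.mp h1).symm
    · rintro _ ⟨D, hD, rfl⟩
      rw [← hWe]
      have h1 : l • udiag z - udiag u = udiag (l • z - u) := by rw [map_sub, map_smul]
      have h1' : umap D (udiag (l • z - u)) = umk (app D (ucst (l • z - u))) := rfl
      rw [h1, h1']
      refine tendsto_nhds_unique (tendsto_hess_UP h hg hz0 _ W hcl') ?_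
      have h2 : Tendsto (fun n : ℕ => L * ‖D‖ * (1 / ((n : ℝ) + 1)))
          (hyperfilter ℕ : Filter ℕ) (𝓝 0) := by
        have h3 := (tendsto_one_div_add_atTop_nhds_zero_nat (𝕜 := ℝ)).const_mul (L * ‖D‖)
        rw [mul_zero] at h3
        exact h3.mono_left Nat.hyperfilter_le_atTop
      refine squeeze_zero_norm (fun n => ?_) h2
      have h3 : hess z (D n (l • z - u)) (v n) = - hess z (D n z) ((A (v n) - l • v n : 𝒱) : E) := by
        rw [map_sub, map_smul, map_sub, map_smul, _root_.sub_apply, _root_.smul_apply, smul_eq_mul]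
        have h4 : hess z (D n u) (v n) = hess z (D n z) (C (ι (v n))) := by
          have h5 := hCs ⟨D n z, mem_closure_Ws (hD n) z⟩ (ι (v n))
          rw [hCD (D n) (hD n)] at h5
          exact h5
        rw [h4, Submodule.coe_sub, Submodule.coe_smul, hAv, map_sub, map_smul, smul_eq_mul]
        ring
      change ‖hess z (D n (l • z - u)) (v n)‖ ≤ _
      rw [h3, norm_neg]
      calc ‖hess z (D n z) ((A (v n) - l • v n : 𝒱) : E)‖
          ≤ ‖hess z (D n z)‖ * ‖((A (v n) - l • v n : 𝒱) : E)‖ :=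
            (hess z (D n z)).le_opNorm _
        _ ≤ (L * ‖D‖) * (1 / ((n : ℝ) + 1)) := by
            gcongr
            · refine ((hess z).le_opNorm _).trans ?_
              gcongr
              · exact (hb z hz0).1
              · refine ((D n).le_opNorm _).trans ?_
                rw [hz, mul_one]
                exact D.norm_coe_le_norm n
            · exact hv2 n
  rw [← hWe] at hfin
  have h1 : ‖umk W‖ = 1 := norm_umk_eq_of_tendsto (tendsto_const_nhds.congr fun n => (hv1 n).symm)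
  rw [hfin, norm_zero] at h1
  exact zero_ne_one h1

/-- **Key Proposition.** -/
theorem key_prop [CompleteSpace E] (h : MicroSp E) {𝔤 : Submodule ℝ (E →L[ℝ] E)}
    (hg : IsStr 𝔤) {z u : E} (hz : ‖z‖ = 1) (hu : u ∈ Zs 𝔤 z) (hne : ∀ c : ℝ, u ≠ c • z)
    {D₀ : E →L[ℝ] E} (hD₀ : D₀ ∈ 𝔤) (h0 : D₀ z = 0) : D₀ = 0 := by
  by_contra hD0
  have hz0 : z ≠ 0 := by
    intro h1
    rw [h1, norm_zero] at hz
    exact zero_ne_one hz
  have hsk : D₀ ∈ skewOps E := hg.skew D₀ hD₀
  obtain ⟨L, c, hL, hc, hb⟩ := hess_bounds h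
  have hnt : Nontrivial E := ⟨⟨z, 0, hz0⟩⟩
  obtain ⟨a, ha, hl⟩ := approx_eigen (hess z) (fun v w => hess_symm h hz0 v w) hc
    (fun v => (hb z hz0).2 v) (-(D₀ * D₀)) (fun v w => by
      rw [_root_.neg_apply, _root_.neg_apply, map_neg, _root_.neg_apply, map_neg, mul_apply_eq_comp, mul_apply_eq_comp,
        hess_skew_of_fix h hsk hz0 h0, hess_skew_of_fix h hsk hz0 h0]
      ring)
  have ha0 : a ≠ 0 := by
    intro ha0
    obtain ⟨v, hv⟩ : ∃ v, D₀ v ≠ 0 := by
      by_contra hcon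
      push Not at hcon
      exact hD0 (ContinuousLinearMap.ext hcon)
    have h1 := ha v
    rw [ha0, zero_mul, _root_.neg_apply, map_neg, _root_.neg_apply, mul_apply_eq_comp,
      hess_skew_of_fix h hsk hz0 h0, neg_neg] at h1
    have h2 := (hb z hz0).2 (D₀ v)
    have h3 : 0 < c * ‖D₀ v‖ ^ 2 := by
      have := norm_pos_iff.mpr hv
      positivity
    linarith
  choose v hv1 hv2 using fun n : ℕ => hl (1 / ((n : ℝ) + 1)) (by positivity)
  set W : ℕ →ᵇ E := bseq v 1 (fun n => (hv1 n).le) with hW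
  have hW1 : ‖umk W‖ = 1 :=
    norm_umk_eq_of_tendsto (tendsto_const_nhds.congr fun n => (hv1 n).symm)
  refine key_prop_aux (microSp_UP h) (isStr_ustr h hg) (z := udiag z) (u := udiag u)
    (by rw [udiag.norm_map, hz]) (udiag_mem_Zs h hu) ?_ (ucop_mem hD₀)
    (by rw [umap_ucop_udiag, h0, map_zero]) ha0 (w := umk W) ?_ ?_
  · intro c hcu
    refine hne c (udiag.injective ?_)
    rw [hcu, map_smul]
  · intro h1
    rw [h1, norm_zero] at hW1
    exact zero_ne_one hW1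
  · rw [umap_mk, umap_mk, ← map_neg, ← map_smul, umk_eq_iff]
    have h2 : Tendsto (fun n : ℕ => (1 / ((n : ℝ) + 1))) (hyperfilter ℕ : Filter ℕ) (𝓝 0) :=
      (tendsto_one_div_add_atTop_nhds_zero_nat (𝕜 := ℝ)).mono_left Nat.hyperfilter_le_atTop
    exact squeeze_zero (fun n => norm_nonneg _) (fun n => hv2 n) h2

end Pool.Agent.Helper53.BM
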