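import Pool.Agent.Helper53.BM.MH.Final

set_option autoImplicit false

open Filter Topology BoundedContinuousFunction

namespace Pool.Agent.Helper53.BM

universe u

variable {E : Type u} [NormedAddCommGroup E] [NormedSpace ℝ E]

/-- All unit vectors close to `x₀` are approximately of the form `T x₀` with approximate isometries
`T` close to the identity. -/
def PointMod (x₀ : E) (δ ε : ℝ) : Prop :=
  ∀ y : E, ‖y‖ = 1 → ‖y - x₀‖ < δ → ∀ η : ℝ, 0 < η → ∃ T : E →L[ℝ] E,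
    (∀ z, ‖T z - z‖ ≤ ε * ‖z‖) ∧ ‖T x₀ - y‖ ≤ η ∧
    ∀ z, (1 - η) * ‖z‖ ≤ ‖T z‖ ∧ ‖T z‖ ≤ (1 + η) * ‖z‖

/-- In the ultrapower the unit vectors close to `udiag x₀` are moved exactly. -/
lemma point_UP [CompleteSpace E] {x₀ : E} (hx₀ : ‖x₀‖ = 1) {δ ε : ℝ} (hε0 : 0 ≤ ε) (hε : ε < 1)
    (h : PointMod x₀ δ ε) (Y : UP E) (hY : ‖Y‖ = 1) (hYx : ‖Y - udiag x₀‖ < δ) :
    ∃ T : UP E ≃ₗᵢ[ℝ] UP E, T (udiag x₀) = Y ∧ CloseToId T ε := by
  classical
  obtain ⟨y, rfl, hy⟩ := unit_rep ⟨x₀, hx₀⟩ Y hY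
  have h1 : ∀ n : ℕ, ∃ T : E →L[ℝ] E, (∀ z, ‖T z - z‖ ≤ ε * ‖z‖) ∧
      (‖y n - x₀‖ < δ → ‖T x₀ - y n‖ ≤ 1 / ((n : ℝ) + 1)) ∧
      ∀ z, (1 - 1 / ((n : ℝ) + 1)) * ‖z‖ ≤ ‖T z‖ ∧ ‖T z‖ ≤ (1 + 1 / ((n : ℝ) + 1)) * ‖z‖ := by
    intro n
    have hn : (0 : ℝ) < 1 / ((n : ℝ) + 1) := by positivity
    by_cases hyn : ‖y n - x₀‖ < δ
    · obtain ⟨T, hT1, hT2, hT3⟩ := h (y n) (hy n) hyn _ hn
      exact ⟨T, hT1, fun _ => hT2, hT3⟩
    · refine ⟨ContinuousLinearMap.id ℝ E, fun z => ?_, fun h => absurd h hyn, fun z => ?_⟩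
      · rw [ContinuousLinearMap.id_apply, sub_self, norm_zero]
        positivity
      · rw [ContinuousLinearMap.id_apply]
        constructor <;> nlinarith [norm_nonneg z]
  choose T hT1 hT2 hT3 using h1
  have hTn : ∀ n, ‖T n‖ ≤ 2 := by
    intro n
    refine ContinuousLinearMap.opNorm_le_bound _ (by norm_num) fun z => ?_
    have h2 : ‖T n z‖ ≤ ‖T n z - z‖ + ‖z‖ := by
      calc ‖T n z‖ = ‖(T n z - z) + z‖ := by rw [sub_add_cancel]
        _ ≤ _ := norm_add_le _ _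
    have h3 := hT1 n z
    nlinarith [norm_nonneg z]
  set D : ℕ →ᵇ (E →L[ℝ] E) := bseq T 2 hTn with hD
  have hlim : Tendsto (fun n : ℕ => (1 / ((n : ℝ) + 1))) (hyperfilter ℕ : Filter ℕ) (𝓝 0) :=
    (tendsto_one_div_add_atTop_nhds_zero_nat (𝕜 := ℝ)).mono_left Nat.hyperfilter_le_atTop
  have hnorm : ∀ Z : UP E, ‖umap D Z‖ = ‖Z‖ := by
    intro Z
    obtain ⟨z, rfl⟩ := umk_surj Z
    rw [umap_mk]
    refine norm_umk_eq_of_tendsto ?_
    refine tendsto_of_tendsto_of_tendsto_of_le_of_le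
      (g := fun n : ℕ => (1 - 1 / ((n : ℝ) + 1)) * ‖z n‖)
      (h := fun n : ℕ => (1 + 1 / ((n : ℝ) + 1)) * ‖z n‖) ?_ ?_
      (fun n => (hT3 n (z n)).1) (fun n => (hT3 n (z n)).2)
    · have := (hlim.const_sub 1).mul (tendsto_norm z)
      simpa using this
    · have := (hlim.const_add 1).mul (tendsto_norm z)
      simpa using this
  have hclose : ∀ Z : UP E, ‖umap D Z - Z‖ ≤ ε * ‖Z‖ := by
    intro Z
    obtain ⟨z, rfl⟩ := umk_surj Z
    rw [umap_mk, ← map_sub]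
    exact le_of_tendsto_of_tendsto' (tendsto_norm _) ((tendsto_norm z).const_mul ε)
      fun n => hT1 n (z n)
  have hsurj : Function.Surjective (umap D) := by
    have h2 : ‖(1 : UP E →L[ℝ] UP E) - umap D‖ < 1 := by
      refine lt_of_le_of_lt ?_ hε
      refine ContinuousLinearMap.opNorm_le_bound _ hε0 fun Z => ?_
      have h3 : ((1 : UP E →L[ℝ] UP E) - umap D) Z = Z - umap D Z := rfl
      rw [h3, norm_sub_rev]
      exact hclose Z
    have h3 := isUnit_one_sub_of_norm_lt_one h2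
    rw [sub_sub_cancel] at h3
    obtain ⟨U, hU⟩ := h3
    intro Z
    refine ⟨((U⁻¹ : (UP E →L[ℝ] UP E)ˣ) : UP E →L[ℝ] UP E) Z, ?_⟩
    have h4 : (U : UP E →L[ℝ] UP E) * ((U⁻¹ : (UP E →L[ℝ] UP E)ˣ) : UP E →L[ℝ] UP E) = 1 :=
      U.mul_inv
    rw [← hU]
    exact congrArg (fun A : UP E →L[ℝ] UP E => A Z) h4
  refine ⟨LinearIsometryEquiv.ofSurjective
    { toLinearMap := (umap D : UP E →ₗ[ℝ] UP E), norm_map' := hnorm } hsurj, ?_, hclose⟩
  change umap D (udiag x₀) = umk y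
  have h2 : umap D (udiag x₀) = umk (app D (ucst x₀)) := rfl
  rw [h2, umk_eq_iff]
  have h3 : Tendsto (fun n => ‖y n - x₀‖) (hyperfilter ℕ : Filter ℕ) (𝓝 ‖umk y - udiag x₀‖) := by
    rw [udiag_apply, ← map_sub]
    exact tendsto_norm _
  have h4 := (tendsto_order.mp h3).2 δ hYx
  refine squeeze_zero' (Eventually.of_forall fun n => norm_nonneg _) ?_ hlim
  filter_upwards [h4] with n hn
  exact hT2 n hn

/-- Micro-transitivity at one point gives transitivity and micro-transitivity. -/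
lemma microSp_of_point (hdim : 1 < Module.rank ℝ E) {z₀ : E} (hz₀ : ‖z₀‖ = 1)
    (h : ∀ ε : ℝ, 0 < ε → ∃ δ : ℝ, 0 < δ ∧ ∀ y : E, ‖y‖ = 1 → ‖y - z₀‖ < δ →
      ∃ T : E ≃ₗᵢ[ℝ] E, T z₀ = y ∧ CloseToId T ε) : MicroSp E := by
  obtain ⟨δ, hδ, hmove⟩ := h 1 one_pos
  have hconn := isConnected_sphere hdim (0 : E) zero_le_one
  -- the orbit of `z₀` is everything
  have horb : ∀ y : E, ‖y‖ = 1 → ∃ T : E ≃ₗᵢ[ℝ] E, T z₀ = y := by
    intro y₀ hy₀
    by_contra hcon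
    set O : Set E := {y | ‖y‖ = 1 ∧ ∃ T : E ≃ₗᵢ[ℝ] E, T z₀ = y} with hO
    set O' : Set E := {y | ‖y‖ = 1 ∧ ¬ ∃ T : E ≃ₗᵢ[ℝ] E, T z₀ = y} with hO'
    set U : Set E := ⋃ y ∈ O, Metric.ball y (δ / 2) with hU
    set V : Set E := ⋃ y ∈ O', Metric.ball y (δ / 2) with hV
    have hUo : IsOpen U := isOpen_biUnion fun y _ => Metric.isOpen_ball
    have hVo : IsOpen V := isOpen_biUnion fun y _ => Metric.isOpen_ball
    have hsub : Metric.sphere (0 : E) 1 ⊆ U ∪ V := by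
      intro z hz
      rw [mem_sphere_zero_iff_norm] at hz
      by_cases hzO : ∃ T : E ≃ₗᵢ[ℝ] E, T z₀ = z
      · exact Or.inl (Set.mem_biUnion (show z ∈ O from ⟨hz, hzO⟩)
          (Metric.mem_ball_self (by positivity)))
      · exact Or.inr (Set.mem_biUnion (show z ∈ O' from ⟨hz, hzO⟩)
          (Metric.mem_ball_self (by positivity)))
    obtain ⟨z, hz, hzU, hzV⟩ := hconn.isPreconnected U V hUo hVo hsub
      ⟨z₀, mem_sphere_zero_iff_norm.mpr hz₀, Set.mem_biUnion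
        (show z₀ ∈ O from ⟨hz₀, LinearIsometryEquiv.refl ℝ E, rfl⟩)
        (Metric.mem_ball_self (by positivity))⟩
      ⟨y₀, mem_sphere_zero_iff_norm.mpr hy₀, Set.mem_biUnion
        (show y₀ ∈ O' from ⟨hy₀, hcon⟩) (Metric.mem_ball_self (by positivity))⟩
    rw [mem_sphere_zero_iff_norm] at hz
    obtain ⟨y, ⟨hy, T, hT⟩, hyz⟩ := Set.mem_iUnion₂.mp hzU
    obtain ⟨y', ⟨hy', hy'n⟩, hy'z⟩ := Set.mem_iUnion₂.mp hzV
    rw [Metric.mem_ball, dist_comm, dist_eq_norm] at hyz hy'z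
    have h1 : ‖y' - y‖ < δ := by
      calc ‖y' - y‖ = ‖(y' - z) - (y - z)‖ := by rw [sub_sub_sub_cancel_right]
        _ ≤ ‖y' - z‖ + ‖y - z‖ := norm_sub_le _ _
        _ < δ := by linarith
    obtain ⟨T1, hT1, -⟩ := hmove (T.symm y') (by rw [LinearIsometryEquiv.norm_map, hy']) (by
      have h2 : T.symm y' - z₀ = T.symm (y' - y) := by
        rw [map_sub, ← hT, T.symm_apply_apply]
      rw [h2, LinearIsometryEquiv.norm_map]
      exact h1)
    refine hy'n ⟨T1.trans T, ?_⟩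
    change T (T1 z₀) = y'
    rw [hT1, T.apply_symm_apply]
  refine ⟨?_, ?_, ⟨z₀, hz₀⟩⟩
  · intro ε hε
    obtain ⟨t, ht, ht'⟩ := h ε hε
    refine ⟨t / 2, by positivity, fun x y hx hy hxy => ?_⟩
    obtain ⟨R, hR⟩ := horb x hx
    obtain ⟨T, hT, hTc⟩ := ht' (R.symm y) (by rw [LinearIsometryEquiv.norm_map, hy]) (by
      have h2 : R.symm y - z₀ = R.symm (y - x) := by
        rw [map_sub, ← hR, R.symm_apply_apply]
      rw [h2, LinearIsometryEquiv.norm_map, norm_sub_rev]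
      linarith)
    refine ⟨(R.symm.trans T).trans R, ?_, fun z => ?_⟩
    · change R (T (R.symm x)) = y
      rw [← hR, R.symm_apply_apply, hT, R.apply_symm_apply]
    · change ‖R (T (R.symm z)) - z‖ ≤ ε * ‖z‖
      have h1 : R (T (R.symm z)) - z = R (T (R.symm z) - R.symm z) := by
        rw [map_sub, R.apply_symm_apply]
      rw [h1, LinearIsometryEquiv.norm_map]
      have h2 := hTc (R.symm z)
      rwa [LinearIsometryEquiv.norm_map] at h2
  · intro x y hx hy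
    obtain ⟨R, hR⟩ := horb x hx
    obtain ⟨S, hS⟩ := horb y hy
    refine ⟨R.symm.trans S, ?_⟩
    change S (R.symm x) = y
    rw [← hR, R.symm_apply_apply, hS]

/-- The parallelogram law from approximate micro-transitivity at one point. -/
theorem parallelogram_of_point [CompleteSpace E] {x₀ : E} (hx₀ : ‖x₀‖ = 1)
    (h : ∀ ε : ℝ, 0 < ε → ∃ δ : ℝ, 0 < δ ∧ PointMod x₀ δ ε) (x y : E) :
    ‖x + y‖ ^ 2 + ‖x - y‖ ^ 2 = 2 * (‖x‖ ^ 2 + ‖y‖ ^ 2) := by
  rcases lt_or_ge 1 (Module.rank ℝ E) with hdim | hdim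
  · -- the rank of the ultrapower
    have hdim' : 1 < Module.rank ℝ (UP E) :=
      lt_of_lt_of_le hdim (LinearMap.rank_le_of_injective (udiag (E := E)).toLinearMap
        (udiag (E := E)).injective)
    have hmicro : MicroSp (UP E) := by
      refine microSp_of_point hdim' (z₀ := udiag x₀) (by rw [udiag.norm_map, hx₀]) ?_
      intro ε hε
      obtain ⟨δ, hδ, hP⟩ := h (min ε (1 / 2)) (lt_min hε (by norm_num))
      refine ⟨δ, hδ, fun Y hY hYx => ?_⟩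
      obtain ⟨T, hT, hTc⟩ := point_UP hx₀ (le_min hε.le (by norm_num))
        (lt_of_le_of_lt (min_le_right _ _) (by norm_num)) hP Y hY hYx
      refine ⟨T, hT, fun z => (hTc z).trans ?_⟩
      gcongr
      exact min_le_left _ _
    have h1 := parallelogram_of_microSp hmicro (udiag x) (udiag y)
    rw [← map_add, ← map_sub, udiag.norm_map, udiag.norm_map, udiag.norm_map, udiag.norm_map] at h1
    exact h1
  · obtain ⟨v, hv⟩ := rank_le_one_iff.mp hdim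
    obtain ⟨a, rfl⟩ := hv x
    obtain ⟨b, rfl⟩ := hv y
    rw [← add_smul, ← sub_smul, norm_smul, norm_smul, norm_smul, norm_smul, mul_pow, mul_pow,
      mul_pow, mul_pow, Real.norm_eq_abs, Real.norm_eq_abs, Real.norm_eq_abs, Real.norm_eq_abs,
      sq_abs, sq_abs, sq_abs, sq_abs]
    ring

end Pool.Agent.Helper53.BM
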