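import Pool.Agent.Helper53.BM.MH.Defs

set_option autoImplicit false

open Filter Topology BoundedContinuousFunction

namespace Pool.Agent.Helper53.BM

universe u v

variable {E : Type u} [NormedAddCommGroup E] [NormedSpace ℝ E]
variable {F : Type v} [NormedAddCommGroup F] [NormedSpace ℝ F]

/-- A bounded sequence as a bounded continuous function. -/
noncomputable def bseq (x : ℕ → E) (C : ℝ) (h : ∀ n, ‖x n‖ ≤ C) : ℕ →ᵇ E :=
  BoundedContinuousFunction.ofNormedAddCommGroupDiscrete x C h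

@[simp] lemma bseq_apply (x : ℕ → E) (C : ℝ) (h : ∀ n, ‖x n‖ ≤ C) (n : ℕ) :
    bseq x C h n = x n := rfl

/-- The bounded sequences which tend to zero along the ultrafilter `hyperfilter ℕ`. -/
noncomputable def UN (E : Type u) [NormedAddCommGroup E] [NormedSpace ℝ E] :
    Submodule ℝ (ℕ →ᵇ E) where
  carrier := {x | Tendsto (fun n => ‖x n‖) (hyperfilter ℕ : Filter ℕ) (𝓝 0)}
  add_mem' := by
    intro x y hx hy
    have h := Tendsto.add hx hy
    rw [add_zero] at h
    exact squeeze_zero (fun n => norm_nonneg _) (fun n => norm_add_le _ _) h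
  zero_mem' := by
    simp only [Set.mem_ofPred_eq, coe_zero, Pi.zero_apply, norm_zero]
    exact tendsto_const_nhds
  smul_mem' := by
    intro c x hx
    have h := Tendsto.const_mul |c| hx
    rw [mul_zero] at h
    simpa [norm_smul] using h

lemma mem_UN {x : ℕ →ᵇ E} :
    x ∈ UN E ↔ Tendsto (fun n => ‖x n‖) (hyperfilter ℕ : Filter ℕ) (𝓝 0) := Iff.rfl

instance isClosed_UN : IsClosed (UN E : Set (ℕ →ᵇ E)) := by
  rw [← isSeqClosed_iff_isClosed]
  intro xs x hxs hlim
  simp only [SetLike.mem_coe, mem_UN] at hxs ⊢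
  rw [Metric.tendsto_nhds]
  intro ε hε
  rw [Metric.tendsto_atTop] at hlim
  obtain ⟨N, hN⟩ := hlim (ε / 2) (by positivity)
  have h1 := hN N le_rfl
  have h2 := (Metric.tendsto_nhds.mp (hxs N)) (ε / 2) (by positivity)
  filter_upwards [h2] with n hn
  rw [dist_zero_right, norm_norm] at hn ⊢
  have h3 : ‖x n‖ ≤ ‖xs N n‖ + dist (xs N) x := by
    have h4 : ‖x n - xs N n‖ ≤ dist (xs N) x := by
      rw [← dist_eq_norm, dist_comm]
      exact BoundedContinuousFunction.dist_coe_le_dist n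
    calc ‖x n‖ = ‖xs N n + (x n - xs N n)‖ := by rw [add_sub_cancel]
      _ ≤ ‖xs N n‖ + ‖x n - xs N n‖ := norm_add_le _ _
      _ ≤ _ := by gcongr
  linarith

/-- The ultrapower of a Banach space over `hyperfilter ℕ`. -/
def UP (E : Type u) [NormedAddCommGroup E] [NormedSpace ℝ E] : Type u := (ℕ →ᵇ E) ⧸ UN E

noncomputable instance instNACG : NormedAddCommGroup (UP E) :=
  inferInstanceAs (NormedAddCommGroup ((ℕ →ᵇ E) ⧸ UN E))

noncomputable instance instNS : NormedSpace ℝ (UP E) :=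
  inferInstanceAs (NormedSpace ℝ ((ℕ →ᵇ E) ⧸ UN E))

/-- The class of a bounded sequence. -/
noncomputable def umk : (ℕ →ᵇ E) →ₗ[ℝ] UP E where
  toFun := fun x => (Submodule.Quotient.mk x : (ℕ →ᵇ E) ⧸ UN E)
  map_add' := fun _ _ => rfl
  map_smul' := fun _ _ => rfl

lemma umk_surj (X : UP E) : ∃ x : ℕ →ᵇ E, umk x = X := (UN E).mkQ_surjective X

lemma umk_eq_iff {x y : ℕ →ᵇ E} :
    umk x = umk y ↔ Tendsto (fun n => ‖x n - y n‖) (hyperfilter ℕ : Filter ℕ) (𝓝 0) := by
  have h : umk x = umk y ↔ x - y ∈ UN E := (Submodule.Quotient.eq (UN E))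
  rw [h, mem_UN]
  rfl

lemma umk_congr {x y : ℕ →ᵇ E} (h : ∀ᶠ n in (hyperfilter ℕ : Filter ℕ), x n = y n) :
    umk x = umk y := by
  rw [umk_eq_iff]
  refine Tendsto.congr' ?_ (tendsto_const_nhds (x := (0 : ℝ)))
  filter_upwards [h] with n hn
  rw [hn, sub_self, norm_zero]

instance instCS [CompleteSpace E] : CompleteSpace (UP E) :=
  inferInstanceAs (CompleteSpace ((ℕ →ᵇ E) ⧸ UN E))

lemma ulim_exists (r : ℕ → ℝ) (C : ℝ) (h : ∀ n, |r n| ≤ C) :
    ∃ l : ℝ, |l| ≤ C ∧ Tendsto r (hyperfilter ℕ : Filter ℕ) (𝓝 l) := by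
  have hc : IsCompact (Set.Icc (-C) C) := isCompact_Icc
  obtain ⟨l, hl, hle⟩ := hc.ultrafilter_le_nhds ((hyperfilter ℕ).map r) (by
    rw [le_principal_iff, Ultrafilter.coe_map, mem_map]
    exact Filter.univ_mem' (fun n => abs_le.mp (h n)))
  exact ⟨l, abs_le.mpr hl, hle⟩

lemma norm_umk_le (x : ℕ →ᵇ E) : ‖umk x‖ ≤ ‖x‖ := Submodule.Quotient.norm_mk_le (UN E) x

/-- The norm is the limit of the norms. -/
lemma tendsto_norm (x : ℕ →ᵇ E) :
    Tendsto (fun n => ‖x n‖) (hyperfilter ℕ : Filter ℕ) (𝓝 ‖umk x‖) := by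
  obtain ⟨l, -, hl⟩ := ulim_exists (fun n => ‖x n‖) ‖x‖ (fun n => by
    rw [abs_of_nonneg (norm_nonneg _)]; exact x.norm_coe_le_norm n)
  have h0 : 0 ≤ l := ge_of_tendsto' hl fun n => norm_nonneg _
  have h1 : l ≤ ‖umk x‖ := by
    refine le_of_forall_pos_le_add fun ε hε => ?_
    obtain ⟨m, hm, hm'⟩ := Submodule.Quotient.norm_mk_lt (S := UN E) (umk x) hε
    have h2 : umk m = umk x := hm
    rw [umk_eq_iff] at h2
    have h3 : Tendsto (fun n => ‖x n‖ - ‖m n - x n‖) (hyperfilter ℕ : Filter ℕ) (𝓝 (l - 0)) :=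
      hl.sub h2
    rw [sub_zero] at h3
    refine (le_of_tendsto' h3 fun n => ?_).trans hm'.le
    have h4 : ‖x n‖ ≤ ‖m n‖ + ‖m n - x n‖ := by
      calc ‖x n‖ = ‖m n - (m n - x n)‖ := by rw [sub_sub_cancel]
        _ ≤ _ := norm_sub_le _ _
    have h5 := m.norm_coe_le_norm n
    linarith
  have h2 : ‖umk x‖ ≤ l := by
    classical
    refine le_of_forall_pos_le_add fun ε hε => ?_
    set y : ℕ →ᵇ E := bseq (fun n => if ‖x n‖ ≤ l + ε then x n else 0) (l + ε) (fun n => by
      split_ifs with h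
      · exact h
      · rw [norm_zero]; linarith) with hy
    have h3 : umk x = umk y := by
      apply umk_congr
      have h4 := (tendsto_order.mp hl).2 (l + ε) (by linarith)
      filter_upwards [h4] with n hn
      rw [hy, bseq_apply, if_pos hn.le]
    rw [h3]
    refine (norm_umk_le y).trans ?_
    rw [BoundedContinuousFunction.norm_le (by linarith)]
    intro n
    rw [hy, bseq_apply]
    split_ifs with h
    · exact h
    · rw [norm_zero]; linarith
  rwa [le_antisymm h1 h2] at hl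

lemma norm_umk_eq_of_tendsto {x : ℕ →ᵇ E} {l : ℝ}
    (h : Tendsto (fun n => ‖x n‖) (hyperfilter ℕ : Filter ℕ) (𝓝 l)) : ‖umk x‖ = l :=
  tendsto_nhds_unique (tendsto_norm x) h

/-- Coordinatewise application of a bounded sequence of operators. -/
noncomputable def app (D : ℕ →ᵇ (E →L[ℝ] F)) (x : ℕ →ᵇ E) : ℕ →ᵇ F :=
  bseq (fun n => D n (x n)) (‖D‖ * ‖x‖) (fun n => ((D n).le_opNorm _).trans (by
    gcongr
    · exact D.norm_coe_le_norm n
    · exact x.norm_coe_le_norm n))

@[simp] lemma app_apply (D : ℕ →ᵇ (E →L[ℝ] F)) (x : ℕ →ᵇ E) (n : ℕ) :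
    app D x n = D n (x n) := rfl

/-- The linear map on the ultrapower given by a bounded sequence of operators. -/
noncomputable def umapLin (D : ℕ →ᵇ (E →L[ℝ] F)) : UP E →ₗ[ℝ] UP F :=
  show ((ℕ →ᵇ E) ⧸ UN E) →ₗ[ℝ] UP F from
    (UN E).liftQ
      { toFun := fun x => umk (app D x)
        map_add' := fun x y => by
          rw [← map_add]
          congr 1
          ext n
          simp
        map_smul' := fun c x => by
          rw [RingHom.id_apply, ← map_smul]
          congr 1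
          ext n
          simp } (by
      intro x hx
      rw [mem_UN] at hx
      rw [LinearMap.mem_ker]
      change umk (app D x) = 0
      rw [← map_zero (umk (E := F)), umk_eq_iff]
      refine squeeze_zero (fun n => norm_nonneg _) (fun n => ?_)
        (by simpa using Tendsto.const_mul ‖D‖ hx)
      simp only [app_apply, coe_zero, Pi.zero_apply, sub_zero]
      refine ((D n).le_opNorm _).trans ?_
      gcongr
      exact D.norm_coe_le_norm n)

/-- The operator on the ultrapower given by a bounded sequence of operators. -/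
noncomputable def umap (D : ℕ →ᵇ (E →L[ℝ] F)) : UP E →L[ℝ] UP F :=
  LinearMap.mkContinuous
    (umapLin D) ‖D‖ (fun X => by
    obtain ⟨x, rfl⟩ := umk_surj X
    change ‖umk (app D x)‖ ≤ ‖D‖ * ‖umk x‖
    refine le_of_tendsto_of_tendsto' (tendsto_norm _) ((tendsto_norm x).const_mul ‖D‖) fun n => ?_
    rw [app_apply]
    refine ((D n).le_opNorm _).trans ?_
    gcongr
    exact D.norm_coe_le_norm n)

@[simp] lemma umap_mk (D : ℕ →ᵇ (E →L[ℝ] F)) (x : ℕ →ᵇ E) : umap D (umk x) = umk (app D x) := rfl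

lemma norm_umap_le (D : ℕ →ᵇ (E →L[ℝ] F)) : ‖umap D‖ ≤ ‖D‖ :=
  LinearMap.mkContinuous_norm_le _ (norm_nonneg D) _

/-- The map from bounded sequences of operators to operators on the ultrapower is linear. -/
lemma umap_add (D D' : ℕ →ᵇ (E →L[ℝ] F)) : umap (D + D') = umap D + umap D' := by
  ext X
  obtain ⟨x, rfl⟩ := umk_surj X
  rw [_root_.add_apply, umap_mk, umap_mk, umap_mk, ← map_add]
  congr 1

lemma umap_smul (c : ℝ) (D : ℕ →ᵇ (E →L[ℝ] F)) : umap (c • D) = c • umap D := by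
  ext X
  obtain ⟨x, rfl⟩ := umk_surj X
  rw [_root_.smul_apply, umap_mk, umap_mk, ← map_smul]
  congr 1

/-- The ring homomorphism from bounded sequences of operators to operators on the ultrapower. -/
noncomputable def umapHom (E : Type u) [NormedAddCommGroup E] [NormedSpace ℝ E] :
    (ℕ →ᵇ (E →L[ℝ] E)) →+* (UP E →L[ℝ] UP E) where
  toFun := umap
  map_one' := by
    ext X
    obtain ⟨x, rfl⟩ := umk_surj X
    rfl
  map_mul' := fun D D' => by
    ext X
    obtain ⟨x, rfl⟩ := umk_surj X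
    rfl
  map_zero' := by
    ext X
    obtain ⟨x, rfl⟩ := umk_surj X
    rfl
  map_add' := umap_add

@[simp] lemma umapHom_apply (D : ℕ →ᵇ (E →L[ℝ] E)) : umapHom E D = umap D := rfl

lemma umap_mul (D D' : ℕ →ᵇ (E →L[ℝ] E)) : umap (D * D') = umap D * umap D' :=
  map_mul (umapHom E) D D'

lemma continuous_umapHom : Continuous (umapHom E) := by
  refine AddMonoidHomClass.continuous_of_bound (umapHom E) 1 fun D => ?_
  rw [one_mul]
  exact norm_umap_le D

lemma exists_bexp {R S : Type*} [NormedRing R] [NormedAlgebra ℝ R] [CompleteSpace R]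
    [NormedRing S] [NormedAlgebra ℝ S] (Φ : (ℕ →ᵇ R) →+* S) (hΦ : Continuous Φ) (D : ℕ →ᵇ R) :
    ∃ B : ℕ →ᵇ R, (∀ n, B n = NormedSpace.exp (D n)) ∧ Φ B = NormedSpace.exp (Φ D) := by
  let _ : NormedAlgebra ℚ (ℕ →ᵇ R) := NormedAlgebra.restrictScalars ℚ ℝ (ℕ →ᵇ R)
  let _ : NormedAlgebra ℚ R := NormedAlgebra.restrictScalars ℚ ℝ R
  let _ : NormedAlgebra ℚ S := NormedAlgebra.restrictScalars ℚ ℝ S
  refine ⟨NormedSpace.exp D, fun n => ?_, NormedSpace.map_exp Φ hΦ D⟩
  let φ : (ℕ →ᵇ R) →+* R :=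
    { toFun := fun D => D n
      map_one' := rfl
      map_mul' := fun _ _ => rfl
      map_zero' := rfl
      map_add' := fun _ _ => rfl }
  have hφ : Continuous φ := by
    refine AddMonoidHomClass.continuous_of_bound φ 1 fun D => ?_
    rw [one_mul]
    exact D.norm_coe_le_norm n
  exact NormedSpace.map_exp φ hφ D

/-- The exponential of the operator on the ultrapower given by a bounded sequence of operators is
given by the sequence of the exponentials. -/
lemma exists_exp_umap [CompleteSpace E] (D : ℕ →ᵇ (E →L[ℝ] E)) :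
    ∃ B : ℕ →ᵇ (E →L[ℝ] E), (∀ n, B n = NormedSpace.exp (D n)) ∧
      umap B = NormedSpace.exp (umap D) :=
  exists_bexp (umapHom E) continuous_umapHom D

/-! ### Isometries -/

/-- The isometry of the ultrapower given by a sequence of isometries. -/
noncomputable def uiso (T : ℕ → E ≃ₗᵢ[ℝ] E) : UP E ≃ₗᵢ[ℝ] UP E :=
  LinearIsometryEquiv.ofSurjective
    { toLinearMap := (umap (bseq (fun n => ((T n).toContinuousLinearEquiv : E →L[ℝ] E)) 1
        (fun n => by
          refine ContinuousLinearMap.opNorm_le_bound _ zero_le_one fun z => ?_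
          rw [one_mul]
          exact ((T n).norm_map z).le)) : UP E →ₗ[ℝ] UP E)
      norm_map' := fun X => by
        obtain ⟨x, rfl⟩ := umk_surj X
        refine norm_umk_eq_of_tendsto ?_
        refine (tendsto_norm x).congr fun n => ?_
        exact ((T n).norm_map _).symm }
    (fun Y => by
      obtain ⟨y, rfl⟩ := umk_surj Y
      refine ⟨umk (bseq (fun n => (T n).symm (y n)) ‖y‖ fun n => ?_), ?_⟩
      · rw [LinearIsometryEquiv.norm_map]
        exact y.norm_coe_le_norm n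
      · refine umk_congr (Eventually.of_forall fun n => ?_)
        exact (T n).apply_symm_apply _)

lemma uiso_mk (T : ℕ → E ≃ₗᵢ[ℝ] E) (x y : ℕ →ᵇ E) (h : ∀ n, y n = T n (x n)) :
    uiso T (umk x) = umk y :=
  umk_congr (Eventually.of_forall fun n => (h n).symm)

lemma uiso_symm (T : ℕ → E ≃ₗᵢ[ℝ] E) : (uiso T).symm = uiso (fun n => (T n).symm) := by
  ext X
  obtain ⟨x, rfl⟩ := umk_surj X
  rw [LinearIsometryEquiv.symm_apply_eq]
  set y : ℕ →ᵇ E := bseq (fun n => (T n).symm (x n)) ‖x‖ (fun n => by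
    rw [LinearIsometryEquiv.norm_map]
    exact x.norm_coe_le_norm n) with hy
  rw [uiso_mk (fun n => (T n).symm) x y (fun n => rfl), uiso_mk T y x (fun n => by simp [hy])]

/-- Conjugation in the ultrapower. -/
lemma cj_uiso (T : ℕ → E ≃ₗᵢ[ℝ] E) (D D' : ℕ →ᵇ (E →L[ℝ] E)) (h : ∀ n, D' n = cj (T n) (D n)) :
    cj (uiso T) (umap D) = umap D' := by
  ext X
  obtain ⟨x, rfl⟩ := umk_surj X
  set y : ℕ →ᵇ E := bseq (fun n => (T n).symm (x n)) ‖x‖ (fun n => by
    rw [LinearIsometryEquiv.norm_map]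
    exact x.norm_coe_le_norm n) with hy
  rw [cj_apply, uiso_symm, uiso_mk (fun n => (T n).symm) x y (fun n => rfl), umap_mk,
    uiso_mk T (app D y) (app D' x) (fun n => by rw [app_apply, app_apply, h n]; rfl), umap_mk]

end Pool.Agent.Helper53.BM
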