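import Pool.Agent.Helper53.BM.MH.Ultra

set_option autoImplicit false

open Filter Topology BoundedContinuousFunction

namespace Pool.Agent.Helper53.BM

universe u

variable {E : Type u} [NormedAddCommGroup E] [NormedSpace ℝ E]

/-! ### Functionals -/

/-- The limit along the ultrafilter. -/
noncomputable def ulim (r : ℕ → ℝ) : ℝ := limUnder (hyperfilter ℕ : Filter ℕ) r

lemma tendsto_ulim {r : ℕ → ℝ} {C : ℝ} (h : ∀ n, |r n| ≤ C) :
    Tendsto r (hyperfilter ℕ : Filter ℕ) (𝓝 (ulim r)) := by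
  obtain ⟨l, -, hl⟩ := ulim_exists r C h
  exact tendsto_nhds_limUnder ⟨l, hl⟩

lemma ulim_eq {r : ℕ → ℝ} {l : ℝ} (h : Tendsto r (hyperfilter ℕ : Filter ℕ) (𝓝 l)) :
    ulim r = l := h.limUnder_eq

lemma abs_apply_le (φ : ℕ →ᵇ StrongDual ℝ E) (x : ℕ →ᵇ E) (n : ℕ) :
    |φ n (x n)| ≤ ‖φ‖ * ‖x‖ := by
  rw [← Real.norm_eq_abs]
  refine ((φ n).le_opNorm _).trans ?_
  gcongr
  · exact φ.norm_coe_le_norm n
  · exact x.norm_coe_le_norm n

/-- The functional on the ultrapower given by a bounded sequence of functionals. -/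
noncomputable def ufunLin (φ : ℕ →ᵇ StrongDual ℝ E) : UP E →ₗ[ℝ] ℝ :=
  show ((ℕ →ᵇ E) ⧸ UN E) →ₗ[ℝ] ℝ from
    (UN E).liftQ
      { toFun := fun x => ulim (fun n => φ n (x n))
        map_add' := fun x y => by
          refine ulim_eq ?_
          have h := (tendsto_ulim (abs_apply_le φ x)).add (tendsto_ulim (abs_apply_le φ y))
          refine h.congr fun n => ?_
          rw [BoundedContinuousFunction.add_apply, map_add]
        map_smul' := fun c x => by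
          refine ulim_eq ?_
          have h := (tendsto_ulim (abs_apply_le φ x)).const_mul c
          refine h.congr fun n => ?_
          rw [BoundedContinuousFunction.smul_apply, map_smul, smul_eq_mul] } (by
      intro x hx
      rw [mem_UN] at hx
      rw [LinearMap.mem_ker]
      refine ulim_eq ?_
      refine squeeze_zero_norm (fun n => ?_) (by simpa using Tendsto.const_mul ‖φ‖ hx)
      refine ((φ n).le_opNorm _).trans ?_
      gcongr
      exact φ.norm_coe_le_norm n)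

lemma tendsto_ufunLin (φ : ℕ →ᵇ StrongDual ℝ E) (x : ℕ →ᵇ E) :
    Tendsto (fun n => φ n (x n)) (hyperfilter ℕ : Filter ℕ) (𝓝 (ufunLin φ (umk x))) :=
  tendsto_ulim (abs_apply_le φ x)

/-- The functional on the ultrapower given by a bounded sequence of functionals. -/
noncomputable def ufun (φ : ℕ →ᵇ StrongDual ℝ E) : StrongDual ℝ (UP E) :=
  LinearMap.mkContinuous (ufunLin φ) ‖φ‖ (fun X => by
    obtain ⟨x, rfl⟩ := umk_surj X
    refine le_of_tendsto_of_tendsto' (tendsto_ufunLin φ x).norm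
      ((tendsto_norm x).const_mul ‖φ‖) fun n => ?_
    refine ((φ n).le_opNorm _).trans ?_
    gcongr
    exact φ.norm_coe_le_norm n)

lemma tendsto_ufun (φ : ℕ →ᵇ StrongDual ℝ E) (x : ℕ →ᵇ E) :
    Tendsto (fun n => φ n (x n)) (hyperfilter ℕ : Filter ℕ) (𝓝 (ufun φ (umk x))) :=
  tendsto_ufunLin φ x

/-! ### Unit vectors and moves -/

lemma unit_rep (hnt : ∃ v : E, ‖v‖ = 1) (X : UP E) (hX : ‖X‖ = 1) :
    ∃ x : ℕ →ᵇ E, umk x = X ∧ ∀ n, ‖x n‖ = 1 := by
  classical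
  obtain ⟨v, hv⟩ := hnt
  obtain ⟨y, rfl⟩ := umk_surj X
  have h1 : ∀ n, ‖(if y n = 0 then v else ‖y n‖⁻¹ • y n)‖ = 1 := by
    intro n
    split_ifs with h
    · exact hv
    · rw [norm_smul, norm_inv, norm_norm, inv_mul_cancel₀ (norm_ne_zero_iff.mpr h)]
  refine ⟨bseq (fun n => if y n = 0 then v else ‖y n‖⁻¹ • y n) 1 (fun n => (h1 n).le), ?_, h1⟩
  rw [umk_eq_iff]
  have h2 := tendsto_norm y
  rw [hX] at h2
  have h3 : Tendsto (fun n => |1 - ‖y n‖|) (hyperfilter ℕ : Filter ℕ) (𝓝 0) := by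
    have := (h2.const_sub 1).abs
    simpa using this
  refine h3.congr' ?_
  have h4 := (tendsto_order.mp h2).1 0 one_pos
  filter_upwards [h4] with n hn
  have hn0 : y n ≠ 0 := norm_pos_iff.mp hn
  rw [bseq_apply, if_neg hn0]
  have h5 : ‖y n‖⁻¹ • y n - y n = (‖y n‖⁻¹ - 1) • y n := by rw [sub_smul, one_smul]
  rw [h5, norm_smul, Real.norm_eq_abs, ← abs_of_pos hn, ← abs_mul, abs_of_pos hn, sub_mul, one_mul,
    inv_mul_cancel₀ hn.ne']

lemma closeToId_uiso {T : ℕ → E ≃ₗᵢ[ℝ] E} {ε : ℝ} (h : ∀ n, CloseToId (T n) ε) :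
    CloseToId (uiso T) ε := by
  intro Z
  obtain ⟨z, rfl⟩ := umk_surj Z
  set y : ℕ →ᵇ E := bseq (fun n => T n (z n)) ‖z‖ (fun n => by
    rw [LinearIsometryEquiv.norm_map]
    exact z.norm_coe_le_norm n) with hy
  rw [uiso_mk T z y (fun n => rfl), ← map_sub]
  exact le_of_tendsto_of_tendsto' (tendsto_norm _) ((tendsto_norm z).const_mul ε)
    fun n => h n (z n)

lemma move_UP (hnt : ∃ v : E, ‖v‖ = 1) (Q : (E ≃ₗᵢ[ℝ] E) → Prop)
    (hQ : Q (LinearIsometryEquiv.refl ℝ E)) {ε t : ℝ} (hε : 0 ≤ ε) (ht : 0 < t)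
    (h : ∀ x y : E, ‖x‖ = 1 → ‖y‖ = 1 → ‖x - y‖ ≤ t → ∃ T : E ≃ₗᵢ[ℝ] E, T x = y ∧
      CloseToId T ε ∧ Q T) (X Y : UP E) (hX : ‖X‖ = 1) (hY : ‖Y‖ = 1) (hXY : ‖X - Y‖ ≤ t / 2) :
    ∃ T : ℕ → E ≃ₗᵢ[ℝ] E, uiso T X = Y ∧ (∀ n, CloseToId (T n) ε) ∧ ∀ n, Q (T n) := by
  classical
  obtain ⟨x, rfl, hx⟩ := unit_rep hnt X hX
  obtain ⟨y, rfl, hy⟩ := unit_rep hnt Y hY
  have h1 : Tendsto (fun n => ‖x n - y n‖) (hyperfilter ℕ : Filter ℕ) (𝓝 ‖umk x - umk y‖) := by
    rw [← map_sub]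
    exact tendsto_norm (x - y)
  have h2 := (tendsto_order.mp h1).2 t (by linarith)
  have h3 : ∀ n, ∃ T : E ≃ₗᵢ[ℝ] E, (‖x n - y n‖ < t → T (x n) = y n) ∧ CloseToId T ε ∧ Q T := by
    intro n
    by_cases hn : ‖x n - y n‖ < t
    · obtain ⟨T, hT, hTc, hTQ⟩ := h (x n) (y n) (hx n) (hy n) hn.le
      exact ⟨T, fun _ => hT, hTc, hTQ⟩
    · refine ⟨LinearIsometryEquiv.refl ℝ E, fun h => absurd h hn, fun z => ?_, hQ⟩
      simp only [LinearIsometryEquiv.coe_refl, id_eq, sub_self, norm_zero]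
      positivity
  choose T hT hTc hTQ using h3
  refine ⟨T, ?_, hTc, hTQ⟩
  set z : ℕ →ᵇ E := bseq (fun n => T n (x n)) ‖x‖ (fun n => by
    rw [LinearIsometryEquiv.norm_map]
    exact x.norm_coe_le_norm n) with hz
  rw [uiso_mk T x z (fun n => rfl)]
  apply umk_congr
  filter_upwards [h2] with n hn
  exact hT n hn

/-! ### Diagonal embedding -/

/-- The constant sequence. -/
noncomputable def ucst (x : E) : ℕ →ᵇ E := bseq (fun _ => x) ‖x‖ (fun _ => le_rfl)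

@[simp] lemma ucst_apply (x : E) (n : ℕ) : ucst x n = x := rfl

/-- The diagonal embedding. -/
noncomputable def udiag : E →ₗᵢ[ℝ] UP E where
  toFun := fun x => umk (ucst x)
  map_add' := fun x y => by
    rw [← map_add]
    rfl
  map_smul' := fun c x => by
    rw [RingHom.id_apply, ← map_smul]
    rfl
  norm_map' := fun x => norm_umk_eq_of_tendsto tendsto_const_nhds

lemma udiag_apply (x : E) : udiag x = umk (ucst x) := rfl

/-! ### The ultrapower of a micro-transitive space -/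

theorem microSp_UP (h : MicroSp E) : MicroSp (UP E) where
  hmt := by
    intro ε hε
    obtain ⟨t, ht, hmod⟩ := h.hmt ε hε
    refine ⟨t / 2, by positivity, fun X Y hX hY hXY => ?_⟩
    obtain ⟨T, hT, hTc, -⟩ := move_UP h.hnt (fun _ => True) trivial hε.le ht
      (fun x y hx hy hxy => by
        obtain ⟨T, hT, hTc⟩ := hmod x y hx hy hxy
        exact ⟨T, hT, hTc, trivial⟩) X Y hX hY hXY
    exact ⟨uiso T, hT, closeToId_uiso hTc⟩
  htr := by
    intro X Y hX hY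
    obtain ⟨x, rfl, hx⟩ := unit_rep h.hnt X hX
    obtain ⟨y, rfl, hy⟩ := unit_rep h.hnt Y hY
    choose T hT using fun n => h.htr (x n) (y n) (hx n) (hy n)
    exact ⟨uiso T, uiso_mk T x y (fun n => (hT n).symm)⟩
  hnt := by
    obtain ⟨v, hv⟩ := h.hnt
    exact ⟨udiag v, by rw [udiag.norm_map, hv]⟩

/-- The sequence of functionals `J (x n)`. -/
noncomputable def Jseq (x : ℕ →ᵇ E) : ℕ →ᵇ StrongDual ℝ E :=
  bseq (fun n => J (x n)) ‖x‖ (fun n => by rw [norm_J]; exact x.norm_coe_le_norm n)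

/-- The duality map of the ultrapower. -/
theorem J_umk (h : MicroSp E) (x : ℕ →ᵇ E) : J (umk x) = ufun (Jseq x) := by
  refine dual_unique (microSp_UP h).hmt (dual_J _) ⟨?_, ?_⟩
  · refine ContinuousLinearMap.opNorm_le_bound _ (norm_nonneg _) fun V => ?_
    obtain ⟨v, rfl⟩ := umk_surj V
    refine le_of_tendsto_of_tendsto' (tendsto_ufun (Jseq x) v).norm
      ((tendsto_norm x).mul (tendsto_norm v)) fun n => ?_
    refine ((Jseq x n).le_opNorm _).trans ?_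
    gcongr
    exact (norm_J (x n)).le
  · refine tendsto_nhds_unique (tendsto_ufun (Jseq x) x) ?_
    refine ((tendsto_norm x).pow 2).congr fun n => ?_
    exact (J_apply_self (x n)).symm

theorem tendsto_J (h : MicroSp E) (x v : ℕ →ᵇ E) :
    Tendsto (fun n => J (x n) (v n)) (hyperfilter ℕ : Filter ℕ) (𝓝 (J (umk x) (umk v))) := by
  rw [J_umk h]
  exact tendsto_ufun (Jseq x) v

/-! ### Structures -/

/-- The ultrapower of a space of operators. -/
noncomputable def ustr (𝔤 : Submodule ℝ (E →L[ℝ] E)) : Submodule ℝ (UP E →L[ℝ] UP E) where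
  carrier := {A | ∃ D : ℕ →ᵇ (E →L[ℝ] E), (∀ n, D n ∈ 𝔤) ∧ umap D = A}
  add_mem' := by
    rintro _ _ ⟨D, hD, rfl⟩ ⟨D', hD', rfl⟩
    exact ⟨D + D', fun n => 𝔤.add_mem (hD n) (hD' n), umap_add D D'⟩
  zero_mem' := ⟨0, fun n => 𝔤.zero_mem, map_zero (umapHom E)⟩
  smul_mem' := by
    rintro c _ ⟨D, hD, rfl⟩
    exact ⟨c • D, fun n => 𝔤.smul_mem c (hD n), umap_smul c D⟩

lemma mem_ustr {𝔤 : Submodule ℝ (E →L[ℝ] E)} {A : UP E →L[ℝ] UP E} :
    A ∈ ustr 𝔤 ↔ ∃ D : ℕ →ᵇ (E →L[ℝ] E), (∀ n, D n ∈ 𝔤) ∧ umap D = A := Iff.rfl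

lemma norm_cj_le (T : E ≃ₗᵢ[ℝ] E) (D : E →L[ℝ] E) : ‖cj T D‖ ≤ ‖D‖ := by
  refine ContinuousLinearMap.opNorm_le_bound _ (norm_nonneg _) fun z => ?_
  rw [cj_apply, LinearIsometryEquiv.norm_map]
  refine (D.le_opNorm _).trans ?_
  rw [LinearIsometryEquiv.norm_map]

theorem isStr_ustr [CompleteSpace E] (h : MicroSp E) {𝔤 : Submodule ℝ (E →L[ℝ] E)}
    (hg : IsStr 𝔤) : IsStr (ustr 𝔤) where
  skew := by
    rintro _ ⟨D, hD, rfl⟩ Y
    obtain ⟨y, rfl⟩ := umk_surj Y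
    rw [umap_mk]
    refine tendsto_nhds_unique (tendsto_J h y (app D y)) ?_
    refine tendsto_const_nhds.congr fun n => ?_
    rw [app_apply, hg.skew _ (hD n)]
  conj := by
    rintro _ ⟨D, hD, rfl⟩ _ ⟨D', hD', rfl⟩ t
    obtain ⟨B, hB, hB'⟩ := exists_exp_umap (t • D)
    obtain ⟨C, hC, hC'⟩ := exists_exp_umap (-(t • D))
    have h1 : umap (-(t • D)) = -(t • umap D) := by
      rw [← umap_smul]
      exact map_neg (umapHom E) (t • D)
    rw [← umap_smul, ← hB', umap_smul, ← h1, ← hC', ← umap_mul, ← umap_mul]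
    refine ⟨B * D' * C, fun n => ?_, rfl⟩
    have h2 := hg.conj _ (hD n) _ (hD' n) t
    have h3 : (B * D' * C) n = B n * D' n * C n := rfl
    rw [h3, hB n, hC n]
    exact h2
  move := by
    intro ε hε
    obtain ⟨t, ht, hmove⟩ := hg.move ε hε
    refine ⟨t / 2, by positivity, fun X Y hX hY hXY => ?_⟩
    obtain ⟨T, hT, hTc, hTQ⟩ := move_UP h.hnt
      (fun T => ∀ D ∈ 𝔤, cj T D ∈ 𝔤 ∧ cj T.symm D ∈ 𝔤) (fun D hD => ⟨by
        have : cj (LinearIsometryEquiv.refl ℝ E) D = D := by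
          ext z
          rfl
        rwa [this], by
        have : cj (LinearIsometryEquiv.refl ℝ E).symm D = D := by
          ext z
          rfl
        rwa [this]⟩) hε.le ht hmove X Y hX hY hXY
    refine ⟨uiso T, hT, closeToId_uiso hTc, ?_⟩
    rintro _ ⟨D, hD, rfl⟩
    refine ⟨?_, ?_⟩
    · refine ⟨bseq (fun n => cj (T n) (D n)) ‖D‖ (fun n => (norm_cj_le _ _).trans
        (D.norm_coe_le_norm n)), fun n => (hTQ n _ (hD n)).1, ?_⟩
      exact (cj_uiso T D _ fun n => rfl).symm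
    · rw [uiso_symm]
      refine ⟨bseq (fun n => cj (T n).symm (D n)) ‖D‖ (fun n => (norm_cj_le _ _).trans
        (D.norm_coe_le_norm n)), fun n => (hTQ n _ (hD n)).2, ?_⟩
      exact (cj_uiso (fun n => (T n).symm) D _ fun n => rfl).symm

end Pool.Agent.Helper53.BM
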